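import Pool.Agent.H85.TU.Targets2
import Pool.Agent.H71.NV.V4

/-!
MP_5607ba_lc, N3P: three variables are enough, with points of all lengths.
-/

set_option autoImplicit false

open Set Pool.Agent.H85.TU

namespace Pool.Agent.H89.TU

/-- the predicates defined by formulas with three variables -/
def LL (E : Type) [MeasurableSpace E]
    (Q : Pool.Agent.H71.NV.Pd ((ℕ × E) × (ℕ → Bool))) : Prop :=
  ∃ φ : F3 ((ℕ × E) × (ℕ → Bool)), NoCount φ ∧
    ∀ (y : (Fin 2 → ℕ) → (ℕ × E) × (ℕ → Bool)) (v : Fin 3 → ℕ),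
      Holds (ar := bar) (D := bD ((ℕ × E) × (ℕ → Bool))) (fun _ => y) φ v ↔ Q y v

theorem cl_LL (E : Type) [MeasurableSpace E] : Pool.Agent.H71.NV.Cl (LL E) := by
  refine ⟨fun B hB i j => ⟨.label () B hB ![i, j], trivial, fun y v => ?_⟩,
    fun i j => ⟨.equal i j, trivial, fun y v => Iff.rfl⟩, fun Q hQ => ?_, fun Q hQ => ?_,
    fun i Q hQ => ?_⟩
  · change y (v ∘ ![i, j]) ∈ B ↔ y ![v i, v j] ∈ B
    have h : v ∘ ![i, j] = ![v i, v j] := by
      funext k
      fin_cases k <;> rfl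
    rw [h]
  · obtain ⟨φ, h0, h⟩ := hQ
    exact ⟨.not φ, h0, fun y v => not_congr (h y v)⟩
  · choose φ h0 h using hQ
    exact ⟨.conj φ, h0, fun y v => forall_congr' fun n => h n y v⟩
  · obtain ⟨φ, h0, h⟩ := hQ
    exact ⟨.ex i φ, h0, fun y v => exists_congr fun a => h y _⟩

theorem pf_N3P : T_N3P := by
  intro E _ _ X hX hinv
  rcases X.eq_empty_or_nonempty with rfl | ⟨x0, hx0⟩
  · have hno : ∀ y : Str bar (bD ((ℕ × E) × (ℕ → Bool))) ℕ,
        y ∉ ModelsAll (V := Fin 3) (.not (.equal 0 0)) := fun y hy => hy (fun _ => 0) rfl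
    refine ⟨.not (.equal 0 0), trivial, fun y hy => absurd hy (hno y), ?_, ?_⟩
    · exact ⟨fun _ => ⟨∅, countable_empty, fun x hx => absurd hx (notMem_empty x)⟩,
        fun _ => ⟨∅, countable_empty, fun x hx => absurd hx (hno x)⟩⟩
    · exact ⟨fun ⟨F, _, h, _⟩ => absurd (h fun _ => true) (hno _),
        fun ⟨F, _, h, _⟩ => absurd (h fun _ => true) (notMem_empty _)⟩
  · obtain ⟨b, rfl⟩ := Pool.Agent.H71.NV.exists_code hX
    have hinv' : ∀ x ∈ Pool.Agent.H71.NV.eval b, ∀ x', Pool.Agent.H71.NV.IsoL x x' →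
        x' ∈ Pool.Agent.H71.NV.eval b := fun x hx x' h => hinv x hx x' h
    obtain ⟨ψ, h0, hψ⟩ := (cl_LL E).mo (x0 []) b
    have hmem : ∀ y : Str bar (bD ((ℕ × E) × (ℕ → Bool))) ℕ,
        y ∈ ModelsAll ψ ↔ y () ∈ Pool.Agent.H71.NV.Mo (x0 []) b := by
      intro y
      have hy : (fun _ => y ()) = y := by
        funext u
        rfl
      constructor
      · intro h
        refine (hψ (y ()) fun _ => 0).1 ?_
        have h1 := h fun _ => 0
        rw [← hy] at h1
        exact h1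
      · intro h v
        have h1 := (hψ (y ()) v).2 h
        rw [hy] at h1
        exact h1
    refine ⟨ψ, h0, fun y hy n => ?_, ?_, ?_⟩
    · obtain ⟨t, ht, -⟩ := ((hmem y).1 hy).1.inf n
      exact ⟨t, ht⟩
    · refine Iff.trans ?_ (Pool.Agent.H71.NV.ctb_iff (d0 := x0 []) hinv')
      constructor
      · rintro ⟨S, hS, h⟩
        refine ⟨(fun y => y ()) '' S, hS.image _, fun y hy => ?_⟩
        obtain ⟨z, hz, g, hg⟩ := h (fun _ => y) ((hmem _).2 hy)
        exact ⟨z (), ⟨z, hz, rfl⟩, g, fun v => hg () v⟩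
      · rintro ⟨S, hS, h⟩
        refine ⟨(fun y _ => y) '' S, hS.image _, fun y hy => ?_⟩
        obtain ⟨z, hz, g, hg⟩ := h (y ()) ((hmem _).1 hy)
        exact ⟨fun _ => z, ⟨z, hz, rfl⟩, g, fun _ v => hg v⟩
    · refine Iff.trans ?_ (Pool.Agent.H71.NV.perf_iff (d0 := x0 []) hinv')
      constructor
      · rintro ⟨F, hF, h1, h2⟩
        refine ⟨fun u => F u (), (measurable_pi_apply ()).comp hF, fun u => (hmem _).1 (h1 u),
          fun u w huw h => h2 u w huw ?_⟩
        obtain ⟨g, hg⟩ := h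
        exact ⟨g, fun _ v => hg v⟩
      · rintro ⟨F, hF, h1, h2⟩
        refine ⟨fun u _ => F u, measurable_pi_lambda _ fun _ => hF, fun u => (hmem _).2 (h1 u),
          fun u w huw h => h2 u w huw ?_⟩
        obtain ⟨g, hg⟩ := h
        exact ⟨g, fun v => hg () v⟩

end Pool.Agent.H89.TU
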